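import Pool.Agent.helper77.MC.Spec

set_option autoImplicit false

namespace Pool.Agent.helper77.MC

open Finset Numbering

theorem CC_card (n : ℕ) (x : Fin n → ℝ) (hx : ∀ i, x i ≠ 0) :
    Fintype.card {i : Fin n // x i < 0} + #{i : Fin n | 0 < x i} = n := by
  rw [Fintype.card_subtype, add_comm]
  have h := card_filter_add_card_filter_not (s := (univ : Finset (Fin n))) (fun i => 0 < x i)
  have h2 : (univ.filter fun i : Fin n => ¬ 0 < x i) = univ.filter fun i : Fin n => x i < 0 := by
    apply filter_congr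
    intro i _
    constructor
    · intro h3
      exact lt_of_le_of_ne (not_lt.1 h3) (hx i)
    · intro h3
      exact not_lt.2 h3.le
  rw [h2, card_univ, Fintype.card_fin] at h
  exact h

theorem CC (h1 : P1_stmt) (h2 : P2_stmt) (h3 : S1_stmt) (h4 : S2_stmt) (h5 : AN_stmt) : CC_stmt := by
  intro ε hε
  obtain ⟨n₀, hn6, hAN⟩ := h5 ε hε
  refine ⟨n₀, ?_⟩
  intro n k x hn hk1 hk2 hx hp
  obtain ⟨ha, hb, hc⟩ := hAN n k hn hk1 hk2
  have hcard := CC_card n x hx
  have hk2' : 2 ≤ k := by
    have h6 : (6 : ℝ) ≤ n := by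
      have : 6 ≤ n := hn6.trans hn
      exact_mod_cast this
    have h7 : ((2 : ℕ) : ℝ) ≤ k := by
      push_cast
      linarith
    exact_mod_cast h7
  have hw0 : (0 : ℝ) ≤ ((n - 2).choose (k - 1) : ℝ) := Nat.cast_nonneg _
  have hcases : #{i : Fin n | 0 < x i} = 0 ∨ #{i : Fin n | 0 < x i} = 1 ∨ #{i : Fin n | 0 < x i} = 2 := by omega
  rcases hcases with h0 | h0 | h0
  · have hneg : ∀ i, x i < 0 := by
      intro i
      have h6 : i ∉ (univ.filter fun i : Fin n => 0 < x i) := by
        rw [card_eq_zero.1 h0]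
        exact notMem_empty _
      rw [mem_filter] at h6
      push Not at h6
      exact lt_of_le_of_ne (h6 (mem_univ _)) (hx i)
    have hz : Pool.Agent.helper72.UP.zer x k = 0 := by
      unfold Pool.Agent.helper72.UP.zer
      rw [card_eq_zero, filter_eq_empty_iff]
      rintro s _ ⟨hs, _, hs2⟩
      have := sum_neg (fun i (_ : i ∈ s) => hneg i) hs
      linarith
    rw [hz]
    exact Nat.zero_le _
  · obtain ⟨u, hu⟩ := card_eq_one.1 h0
    have hiff : ∀ i, 0 < x i ↔ i = u := by
      intro i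
      have h6 : i ∈ (univ.filter fun i : Fin n => 0 < x i) ↔ i ∈ ({u} : Finset (Fin n)) := by rw [hu]
      rw [mem_filter, mem_singleton] at h6
      simpa using h6
    have hq : Fintype.card {i : Fin n // x i < 0} = n - 1 := by omega
    have hz := h3 n k x u hx hiff
    have hP := h1 {i : Fin n // x i < 0} (fun i => - x i.1) (x u) (k - 1) (2 * ((n - 2).choose (k - 1) : ℝ))
      (fun b => neg_pos.2 b.2) ((hiff u).2 rfl) (by positivity) (by rw [hq]; exact hc)
    have hz' : (Pool.Agent.helper72.UP.zer x k : ℝ) ≤ 2 * ((n - 2).choose (k - 1) : ℝ) :=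
      (by exact_mod_cast hz : (Pool.Agent.helper72.UP.zer x k : ℝ) ≤ (#(fam (fun i : {i : Fin n // x i < 0} => - x i.1) (x u) (k - 1)) : ℝ)).trans hP
    exact_mod_cast hz'
  · obtain ⟨u, v, huv, huv2⟩ := card_eq_two.1 h0
    have hiff : ∀ i, 0 < x i ↔ i = u ∨ i = v := by
      intro i
      have h6 : i ∈ (univ.filter fun i : Fin n => 0 < x i) ↔ i ∈ ({u, v} : Finset (Fin n)) := by rw [huv2]
      rw [mem_filter, mem_insert, mem_singleton] at h6
      simpa using h6
    have hq : Fintype.card {i : Fin n // x i < 0} = n - 2 := by omega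
    have hz := h4 n k x u v hx huv hiff
    have hk1' : k - 2 + 1 = k - 1 := by omega
    have hP := h2 {i : Fin n // x i < 0} (fun i => - x i.1) (x u) (x v) (k - 2) ((n - 2).choose (k - 1) : ℝ)
      (fun b => neg_pos.2 b.2) ((hiff u).2 (Or.inl rfl)) ((hiff v).2 (Or.inr rfl)) hw0
      (by rw [hq, hk1']; exact ha) (by rw [hq]; exact hb)
    rw [hk1'] at hP
    have hz' : (Pool.Agent.helper72.UP.zer x k : ℝ) ≤ 2 * ((n - 2).choose (k - 1) : ℝ) :=
      (by exact_mod_cast hz : (Pool.Agent.helper72.UP.zer x k : ℝ) ≤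
        (#(fam (fun i : {i : Fin n // x i < 0} => - x i.1) (x u) (k - 1)) : ℝ) + #(fam (fun i : {i : Fin n // x i < 0} => - x i.1) (x v) (k - 1)) +
        #(fam (fun i : {i : Fin n // x i < 0} => - x i.1) (x u + x v) (k - 2))).trans hP
    exact_mod_cast hz'

end Pool.Agent.helper77.MC
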