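import Pool.Agent.helper76.MC.Defs
import Pool.Agent.helper97.FQ.S0

/-! # Project MC, module S1: one step of the reduction -/

namespace Pool.Agent.helper76.MC

open Finset Pool.Agent.helper34.DH Pool.Agent.helper76.FV Pool.Agent.helper76.LP
open Pool.Agent.helper76.UR
open Matrix (SpecialLinearGroup)

theorem step1 (m : ℕ) [NeZero m] (D : ℕ) [NeZero D] (hD : D ∣ m) (c : ZMod m → ℤ)
    (hmax : ∀ x, anti c x ≠ 0 → addOrderOf x ≤ D)
    (hdec : NDec D (fun z => anti c (LP.emb D m (z : ZMod D)))) :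
    ∃ c' : ZMod m → ℤ, TateF (anti fun x => c x - c' x) ∧
      (∀ x, anti c' x ≠ 0 → addOrderOf x < D) ∧
      ∃ j : ℤ, LP.cls m c' = LP.cls m c + j • hh := by
  classical
  obtain ⟨N, hN1, hN2, hN3⟩ := hdec
  have hD0 : 0 < D := Nat.pos_of_ne_zero (NeZero.ne D)
  have key : ∀ p : ℕ, ∃ g q : ZMod m → ℤ, p ∈ D.primeFactors →
      (∀ z : (ZMod D)ˣ, anti g (LP.emb D m (z : ZMod D)) = N p z) ∧
      (∀ x, addOrderOf x ≠ D → anti g x = - q x) ∧ (∀ x, q x ≠ 0 → addOrderOf x = D / p) ∧
      TateF (anti g) ∧ ∃ j : ℤ, LP.cls m g = j • hh := by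
    intro p
    by_cases hp : p ∈ D.primeFactors
    · have hpp := Nat.prime_of_mem_primeFactors hp
      have hpd := Nat.dvd_of_mem_primeFactors hp
      have : NeZero (D / p) := ⟨(Nat.div_pos (Nat.le_of_dvd hD0 hpd) hpp.pos).ne'⟩
      obtain ⟨g, q, h⟩ := SP_one m D (D / p) p hD (Nat.div_mul_cancel hpd) hpp (N p) (hN1 p hp)
        (hN3 p hp)
      exact ⟨g, q, fun _ => ⟨h.1, h.2.1, h.2.2.1, h.2.2.2.2⟩⟩
    · exact ⟨0, 0, fun h => absurd h hp⟩
  choose G Q hGQ using key
  have hanti : ∀ x, anti (fun x => c x - ∑ p ∈ D.primeFactors, G p x) x =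
      anti c x - ∑ p ∈ D.primeFactors, anti (G p) x := SP_sum_anti _ _ _
  have hfull : ∀ x, addOrderOf x = D →
      anti (fun x => c x - ∑ p ∈ D.primeFactors, G p x) x = 0 := by
    intro x hx
    obtain ⟨z, rfl⟩ := exists_emb x hx
    have h := hN2 z
    simp only at h
    rw [hanti, h, sub_eq_zero]
    exact Finset.sum_congr rfl fun p hp => ((hGQ p hp).1 z).symm
  have hrest : ∀ x, addOrderOf x ≠ D →
      anti (fun x => c x - ∑ p ∈ D.primeFactors, G p x) x =
        anti c x + ∑ p ∈ D.primeFactors, Q p x := by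
    intro x hx
    rw [hanti, Finset.sum_congr rfl fun p hp => (hGQ p hp).2.1 x hx, Finset.sum_neg_distrib]
    ring
  refine ⟨fun x => c x - ∑ p ∈ D.primeFactors, G p x, ?_, ?_, ?_⟩
  · intro t
    have h0 : ∀ x, anti (fun x => c x - (c x - ∑ p ∈ D.primeFactors, G p x)) x =
        ∑ p ∈ D.primeFactors, anti (G p) x := by
      intro x
      unfold anti
      rw [Finset.sum_sub_distrib]
      ring
    simp_rw [h0, Finset.sum_mul]
    rw [Finset.sum_comm, Finset.sum_congr rfl fun p hp => (hGQ p hp).2.2.2.1 t]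
    simp
  · intro x hx
    have hne : addOrderOf x ≠ D := fun h => hx (hfull x h)
    rw [hrest x hne] at hx
    by_cases h1 : anti c x = 0
    · rw [h1, zero_add] at hx
      obtain ⟨p, hp, hpx⟩ := Finset.exists_ne_zero_of_sum_ne_zero hx
      rw [(hGQ p hp).2.2.1 x hpx]
      exact Nat.div_lt_self hD0 (Nat.prime_of_mem_primeFactors hp).one_lt
    · exact lt_of_le_of_ne (hmax x h1) hne
  · have h1 : ∀ p : ℕ, ∃ j : ℤ, p ∈ D.primeFactors → LP.cls m (G p) = j • hh := by
      intro p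
      by_cases hp : p ∈ D.primeFactors
      · obtain ⟨j, hj⟩ := (hGQ p hp).2.2.2.2
        exact ⟨j, fun _ => hj⟩
      · exact ⟨0, fun h => absurd h hp⟩
    choose j hj using h1
    refine ⟨- ∑ p ∈ D.primeFactors, j p, ?_⟩
    have h2 : LP.cls m (fun x => c x - ∑ p ∈ D.primeFactors, G p x) =
        LP.cls m c - ∑ p ∈ D.primeFactors, LP.cls m (G p) := by
      unfold LP.cls
      simp_rw [sub_smul, Finset.sum_smul, Finset.sum_sub_distrib]
      rw [Finset.sum_comm]
    rw [h2, Finset.sum_congr rfl fun p hp => hj p hp, ← Finset.sum_smul, neg_smul, sub_eq_add_neg]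

lemma S1_tate_mul {m : ℕ} [NeZero m] {f : ZMod m → ℤ} (hf : TateF f) (t : (ZMod m)ˣ) :
    TateF (fun x => f ((t : ZMod m) * x)) := by
  intro u
  have h := hf (u * t⁻¹)
  rw [← h]
  refine Fintype.sum_bijective (fun x => (t : ZMod m) * x) ?_ _ _ fun x => ?_
  · exact (Units.mulLeft t).bijective
  · have h1 : ((u * t⁻¹ : (ZMod m)ˣ) : ZMod m) * ((t : ZMod m) * x) = (u : ZMod m) * x := by
      push_cast
      rw [mul_assoc, ← mul_assoc ((t⁻¹ : (ZMod m)ˣ) : ZMod m), Units.inv_mul, one_mul]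
    simp only
    rw [h1]

lemma S1_tate_sub {m : ℕ} [NeZero m] {f g : ZMod m → ℤ} (hf : TateF f) (hg : TateF g) :
    TateF (fun x => f x - g x) := by
  intro u
  simp_rw [sub_mul, Finset.sum_sub_distrib]
  rw [hf u, hg u, sub_zero]

/-- Tate functions: the condition of `SqT` holds for all units -/
lemma S1_anti_mul {m : ℕ} [NeZero m] {d : ZMod m → ℤ} (hd : TateF (anti d)) (t : (ZMod m)ˣ) :
    TateF (anti fun x => d ((t : ZMod m) * x) - d x) := by
  have h := S1_tate_sub (S1_tate_mul hd t) hd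
  have h0 : (anti fun x => d ((t : ZMod m) * x) - d x) =
      fun x => anti d ((t : ZMod m) * x) - anti d x := by
    funext x
    unfold anti
    simp only [mul_neg]
    ring
  rw [h0]
  exact h

lemma S1_G4_tate {m : ℕ} [NeZero m] {d : ZMod m → ℤ} (hd : TateF (anti d)) : G4 m d = 0 := by
  unfold G4
  exact Finset.sum_eq_zero fun t _ => by rw [hd t, mul_zero]

lemma S1_G4_sub {m : ℕ} [NeZero m] (c d : ZMod m → ℤ) (n : ℤ) :
    G4 m (fun x => c x - n * d x) = G4 m c - n * G4 m d := by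
  unfold G4
  rw [Finset.mul_sum, ← Finset.sum_sub_distrib]
  refine Finset.sum_congr rfl fun t _ => ?_
  have h : (∑ x, anti (fun x => c x - n * d x) x * saw m ((t : ZMod m) * x)) =
      (∑ x, anti c x * saw m ((t : ZMod m) * x)) -
        n * ∑ x, anti d x * saw m ((t : ZMod m) * x) := by
    rw [Finset.mul_sum, ← Finset.sum_sub_distrib]
    refine Finset.sum_congr rfl fun x _ => ?_
    unfold anti
    ring
  rw [h]
  ring

theorem pre_of_tate (m : ℕ) [NeZero m] (c c' : ZMod m → ℤ) (h : Pre m c)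
    (hT : TateF (anti fun x => c x - c' x)) : Pre m c' := by
  refine ⟨fun t ht => ?_, fun h4 => ?_⟩
  · have h1 := S1_tate_sub (h.1 t ht) (S1_anti_mul hT t)
    have h0 : (anti fun x => c' ((t : ZMod m) * x) - c' x) = fun x =>
        (anti fun x => c ((t : ZMod m) * x) - c x) x -
        (anti fun x => (c ((t : ZMod m) * x) - c' ((t : ZMod m) * x)) - (c x - c' x)) x := by
      funext x
      unfold anti
      ring
    rw [h0]
    exact h1
  · have h1 := S1_G4_tate hT
    have h2 := S1_G4_sub c (fun x => c x - c' x) 1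
    rw [h1, h.2 h4] at h2
    have h3 : (fun x => c x - 1 * (c x - c' x)) = c' := by
      funext x
      ring
    rw [h3] at h2
    rw [h2]
    ring

theorem pre_sub (m : ℕ) [NeZero m] (c e : ZMod m → ℤ) (n : ℤ) (h : Pre m c) (he : Inv m e)
    (hg : 4 ∣ m → G4 m e = 0) : Pre m (fun x => c x - n * e x) := by
  refine ⟨fun t ht => ?_, fun h4 => ?_⟩
  · have h0 : (anti fun x => (c ((t : ZMod m) * x) - n * e ((t : ZMod m) * x)) -
        (c x - n * e x)) = anti fun x => c ((t : ZMod m) * x) - c x := by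
      funext x
      unfold anti
      simp only [he t ht x, he t ht (-x)]
      ring
    rw [h0]
    exact h.1 t ht
  · rw [S1_G4_sub, h.2 h4, hg h4]
    ring

theorem pre_tate (m : ℕ) [NeZero m] (c : ZMod m → ℤ) (h : TateF (anti c)) : Pre m c :=
  ⟨fun t _ => S1_anti_mul h t, fun _ => S1_G4_tate h⟩

end Pool.Agent.helper76.MC
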